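import Pool.Agent.H10.AutF

set_option autoImplicit false

namespace Pool.Agent.Results.MP_29e051_nt.NeverAutomatic

open Pool.Agent.H10.Aut

/-- For every base `k ≥ 2` the base-`k` digit sequence of `A_k = ∑ 1/(k^n - 1)` is not
`k`-automatic, whatever the starting index `h` and in whichever order the automaton reads. -/
theorem result : ∀ k : ℕ, 2 ≤ k → ∀ h : ℕ,
    ¬ AutomaticMSD k (fun n => digit k (A k) (n + h)) ∧
    ¬ AutomaticLSD k (fun n => digit k (A k) (n + h)) := fun _ hk h =>
  ⟨fun hA => not_automatic hk h (Or.inl hA), fun hA => not_automatic hk h (Or.inr hA)⟩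

end Pool.Agent.Results.MP_29e051_nt.NeverAutomatic
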